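import Pool.Agent.Helper26.KD.StT

/-! # Project CB (MP_65faa7), module Wc: elementary facts on the truncated weight
Paper proof: /team-store/MP_65faa7-KT-plan.md, entry Wc. -/

set_option autoImplicit false

open scoped BigOperators ENNReal Topology
open Pool.LE Pool.NL Filter

namespace Pool.KD

namespace WcM

/-- the weight as a function of the length -/
noncomputable def ff (s a : ℝ) : ℝ := (1 + a ^ 2) ^ (-(s / 2))

/-- the cut-off as a function of the length, before the fourth power -/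
noncomputable def hh (M a : ℝ) : ℝ := max 0 (1 - a ^ 2 / M ^ 2)

theorem q1 (a : ℝ) : 1 ≤ 1 + a ^ 2 := by nlinarith [sq_nonneg a]

theorem ff_deriv (s a : ℝ) :
    HasDerivAt (ff s) (2 * a * (-(s / 2)) * (1 + a ^ 2) ^ (-(s / 2) - 1)) a := by
  have h1 : HasDerivAt (fun t : ℝ => 1 + t ^ 2) (2 * a) a := by
    have := (hasDerivAt_pow 2 a).const_add 1
    simpa using this
  have h2 := h1.rpow_const (p := -(s / 2)) (Or.inl (by have := q1 a; positivity))
  exact h2

theorem ff_le1 {s : ℝ} (hs : 0 ≤ s) (a : ℝ) : 0 < ff s a ∧ ff s a ≤ 1 := by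
  refine ⟨Real.rpow_pos_of_pos (by have := q1 a; linarith) _, ?_⟩
  exact Real.rpow_le_one_of_one_le_of_nonpos (q1 a) (by linarith)

theorem ff_lip {s : ℝ} (hs : 0 ≤ s) (a b : ℝ) : |ff s b - ff s a| ≤ s * |b - a| := by
  have h := Convex.norm_image_sub_le_of_norm_hasDerivWithin_le (f := ff s)
    (f' := fun a => 2 * a * (-(s / 2)) * (1 + a ^ 2) ^ (-(s / 2) - 1)) (C := s)
    (s := Set.univ) (x := a) (y := b)
    (fun x _ => (ff_deriv s x).hasDerivWithinAt) ?_ convex_univ (Set.mem_univ _)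
    (Set.mem_univ _)
  · simpa [Real.norm_eq_abs] using h
  · intro x _
    have hq := q1 x
    have hq0 : 0 < 1 + x ^ 2 := by linarith
    rw [Real.rpow_sub_one hq0.ne']
    have h3 : (1 + x ^ 2) ^ (-(s / 2)) ≤ 1 := (ff_le1 hs x).2
    have h4 : 0 < (1 + x ^ 2) ^ (-(s / 2)) := (ff_le1 hs x).1
    rw [Real.norm_eq_abs]
    have e : 2 * x * (-(s / 2)) * ((1 + x ^ 2) ^ (-(s / 2)) / (1 + x ^ 2)) =
        -(s * (x / (1 + x ^ 2)) * (1 + x ^ 2) ^ (-(s / 2))) := by
      field_simp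
    rw [e, abs_neg, abs_mul, abs_mul, abs_of_nonneg hs, abs_of_pos h4]
    have h5 : |x / (1 + x ^ 2)| ≤ 1 := by
      rw [abs_div, abs_of_pos hq0, div_le_one hq0]
      rw [← sq_abs x]
      nlinarith [sq_nonneg (|x| - 1), abs_nonneg x]
    calc s * |x / (1 + x ^ 2)| * (1 + x ^ 2) ^ (-(s / 2))
        ≤ s * 1 * 1 := by
          apply mul_le_mul _ h3 h4.le (by linarith)
          exact mul_le_mul_of_nonneg_left h5 hs
      _ = s := by ring

theorem hh_01 (M a : ℝ) : 0 ≤ hh M a ∧ hh M a ≤ 1 := by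
  refine ⟨le_max_left _ _, ?_⟩
  apply max_le (by norm_num)
  have : 0 ≤ a ^ 2 / M ^ 2 := by positivity
  linarith

theorem hh_eq {M : ℝ} (hM : 1 ≤ M) {a : ℝ} (ha : 0 ≤ a) :
    hh M a = 1 - (min a M) ^ 2 / M ^ 2 := by
  have hM0 : 0 < M := by linarith
  unfold hh
  rcases le_total a M with h | h
  · rw [min_eq_left h, max_eq_right]
    have : a ^ 2 / M ^ 2 ≤ 1 := by
      rw [div_le_one (by positivity)]
      exact pow_le_pow_left₀ ha h 2
    linarith
  · rw [min_eq_right h, max_eq_left]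
    · rw [div_self (by positivity)]; ring
    · have : 1 ≤ a ^ 2 / M ^ 2 := by
        rw [le_div_iff₀ (by positivity), one_mul]
        exact pow_le_pow_left₀ hM0.le h 2
      linarith

theorem hh_zero {M : ℝ} (hM : 1 ≤ M) {a : ℝ} (h : M ≤ a) : hh M a = 0 := by
  have hM0 : 0 < M := by linarith
  rw [hh_eq hM (by linarith), min_eq_right h, div_self (by positivity)]
  ring

theorem hh_lip {M : ℝ} (hM : 1 ≤ M) {a b : ℝ} (ha : 0 ≤ a) (hb : 0 ≤ b) :
    |hh M b - hh M a| ≤ 2 * |b - a| := by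
  have hM0 : 0 < M := by linarith
  rw [hh_eq hM ha, hh_eq hM hb]
  have e : 1 - min b M ^ 2 / M ^ 2 - (1 - min a M ^ 2 / M ^ 2) =
      -(((min b M + min a M) / M ^ 2) * (min b M - min a M)) := by
    field_simp
    ring
  rw [e, abs_neg, abs_mul]
  have h1 : |min b M - min a M| ≤ |b - a| := by
    have := abs_min_sub_min_le_max b M a M
    simpa using this
  have h2 : |(min b M + min a M) / M ^ 2| ≤ 2 := by
    rw [abs_of_nonneg (by positivity), div_le_iff₀ (by positivity)]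
    have := min_le_right b M
    have := min_le_right a M
    nlinarith
  exact mul_le_mul h2 h1 (abs_nonneg _) (by norm_num)

theorem pow4_lip {u v : ℝ} (hu : 0 ≤ u) (hu1 : u ≤ 1) (hv : 0 ≤ v) (hv1 : v ≤ 1) :
    |v ^ 4 - u ^ 4| ≤ 4 * |v - u| := by
  have e : v ^ 4 - u ^ 4 = (v ^ 3 + v ^ 2 * u + v * u ^ 2 + u ^ 3) * (v - u) := by ring
  rw [e, abs_mul]
  apply mul_le_mul_of_nonneg_right _ (abs_nonneg _)
  rw [abs_of_nonneg (by positivity)]
  have h2 : u ^ 2 ≤ 1 := pow_le_one₀ hu hu1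
  have h3 : v ^ 2 ≤ 1 := pow_le_one₀ hv hv1
  have h4 : u ^ 3 ≤ 1 := pow_le_one₀ hu hu1
  have h5 : v ^ 3 ≤ 1 := pow_le_one₀ hv hv1
  have h6 : v ^ 2 * u ≤ 1 * 1 := mul_le_mul h3 hu1 hu (by norm_num)
  have h7 : v * u ^ 2 ≤ 1 * 1 := mul_le_mul hv1 h2 (by positivity) (by norm_num)
  linarith

theorem ww_eq {d : ℕ} {s m : ℝ} {x : Zd d} (_ : 1 ≤ m) (h : nn x ^ 2 = LE.sq x) :
    ww s m x = ff s (nn x / m) := by
  unfold ww ff qq
  rw [← h, div_pow]

theorem ct_eq {d : ℕ} {M m : ℝ} {x : Zd d} (hm : 1 ≤ m) (hM : 1 ≤ M)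
    (h : nn x ^ 2 = LE.sq x) :
    ct (M * m) x = hh M (nn x / m) ^ 4 := by
  unfold ct hh
  rw [← h]
  congr 3
  have hm0 : 0 < m := by linarith
  have hM0 : 0 < M := by linarith
  field_simp

end WcM

open WcM

theorem hWc (hW : StW) : StWc := by
  intro s M hs hM
  refine ⟨s + 8, by linarith, ?_⟩
  intro d m hm
  obtain ⟨h1, h2, -⟩ := hW d m hm
  have hm0 : 0 < m := by linarith
  have hM0 : 0 < M := by linarith
  have hsq : ∀ x : Zd d, nn x ^ 2 = LE.sq x := fun x => (h1 x).2.2.1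
  have hnn : ∀ x : Zd d, 0 ≤ nn x := fun x => (h1 x).2.1
  have hpos : ∀ x : Zd d, 0 ≤ nn x / m := fun x => div_nonneg (hnn x) hm0.le
  have hdiff : ∀ x y : Zd d, |nn (x + y) / m - nn x / m| ≤ nn y / m := by
    intro x y
    rw [← sub_div, abs_div, abs_of_pos hm0]
    apply div_le_div_of_nonneg_right _ hm0.le
    rw [abs_le]
    constructor
    · have h3 := (h2 (x + y) (-y)).1
      rw [(h1 y).2.2.2.1, add_neg_cancel_right] at h3
      linarith
    · have h3 := (h2 x y).1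
      linarith
  have hwc : ∀ x : Zd d, wc s m (M * m) x = ff s (nn x / m) * hh M (nn x / m) ^ 4 := by
    intro x
    unfold wc
    rw [ww_eq hm (hsq x), ct_eq hm hM (hsq x)]
  have hf := fun x : Zd d => ff_le1 hs (nn x / m)
  have hh1 := fun x : Zd d => hh_01 M (nn x / m)
  have hh4 : ∀ x : Zd d, 0 ≤ hh M (nn x / m) ^ 4 ∧ hh M (nn x / m) ^ 4 ≤ 1 := fun x =>
    ⟨pow_nonneg (hh1 x).1 4, pow_le_one₀ (hh1 x).1 (hh1 x).2⟩
  refine ⟨?_, ?_, ?_, ?_, ?_⟩
  · intro x
    rw [hwc, ww_eq hm (hsq x)]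
    refine ⟨mul_nonneg (hf x).1.le (hh4 x).1, ?_⟩
    calc ff s (nn x / m) * hh M (nn x / m) ^ 4 ≤ ff s (nn x / m) * 1 :=
          mul_le_mul_of_nonneg_left (hh4 x).2 (hf x).1.le
      _ = _ := mul_one _
  · intro x hx
    rw [hwc, hh_zero hM (by rwa [le_div_iff₀ hm0])]
    ring
  · intro x y
    rw [hwc, hwc]
    have e : ff s (nn (x + y) / m) * hh M (nn (x + y) / m) ^ 4 -
        ff s (nn x / m) * hh M (nn x / m) ^ 4 =
        (ff s (nn (x + y) / m) - ff s (nn x / m)) * hh M (nn (x + y) / m) ^ 4 +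
        ff s (nn x / m) * (hh M (nn (x + y) / m) ^ 4 - hh M (nn x / m) ^ 4) := by ring
    rw [e]
    refine (abs_add_le _ _).trans ?_
    rw [abs_mul, abs_mul, abs_of_nonneg (hh4 (x + y)).1, abs_of_pos (hf x).1]
    have a1 : |ff s (nn (x + y) / m) - ff s (nn x / m)| ≤ s * (nn y / m) :=
      (ff_lip hs _ _).trans (mul_le_mul_of_nonneg_left (hdiff x y) hs)
    have a2 : |hh M (nn (x + y) / m) ^ 4 - hh M (nn x / m) ^ 4| ≤ 8 * (nn y / m) := by
      refine (pow4_lip (hh1 x).1 (hh1 x).2 (hh1 (x + y)).1 (hh1 (x + y)).2).trans ?_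
      have := hh_lip hM (hpos x) (hpos (x + y))
      have := hdiff x y
      linarith
    have a3 : |ff s (nn (x + y) / m) - ff s (nn x / m)| * hh M (nn (x + y) / m) ^ 4 ≤
        s * (nn y / m) * 1 :=
      mul_le_mul a1 (hh4 (x + y)).2 (hh4 (x + y)).1 (mul_nonneg hs (hpos y))
    have a4 : ff s (nn x / m) * |hh M (nn (x + y) / m) ^ 4 - hh M (nn x / m) ^ 4| ≤
        1 * (8 * (nn y / m)) :=
      mul_le_mul (hf x).2 a2 (abs_nonneg _) (by norm_num)
    have e2 : (s + 8) * nn y / m = s * (nn y / m) * 1 + 1 * (8 * (nn y / m)) := by ring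
    rw [e2]
    exact add_le_add a3 a4
  · intro x y
    rw [ww_eq hm (hsq x), ww_eq hm (hsq (x + y))]
    have a1 : |ff s (nn (x + y) / m) - ff s (nn x / m)| ≤ s * (nn y / m) :=
      (ff_lip hs _ _).trans (mul_le_mul_of_nonneg_left (hdiff x y) hs)
    have e2 : (s + 8) * nn y / m = s * (nn y / m) + 8 * (nn y / m) := by ring
    rw [e2]
    have := hpos y
    linarith
  · intro x hs2
    rw [hwc, ww_eq hm (hsq x)]
    set a := nn x / m with ha
    have ha0 : 0 ≤ a := hpos x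
    have hq := q1 a
    have hq0 : 0 < 1 + a ^ 2 := by linarith
    have b1 : ff s a ≤ 1 / (1 + a ^ 2) := by
      unfold ff
      calc (1 + a ^ 2) ^ (-(s / 2)) ≤ (1 + a ^ 2) ^ (-1 : ℝ) :=
            Real.rpow_le_rpow_of_exponent_le hq (by linarith)
        _ = 1 / (1 + a ^ 2) := by rw [Real.rpow_neg_one, one_div]
    have b2 : 1 - hh M a ^ 4 ≤ 4 * (a ^ 2 / M ^ 2) := by
      have c1 := pow4_lip (hh1 x).1 (hh1 x).2 zero_le_one le_rfl
      rw [one_pow, abs_of_nonneg (by have := (hh4 x).2; linarith),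
        abs_of_nonneg (by have := (hh1 x).2; linarith)] at c1
      have c2 : 1 - a ^ 2 / M ^ 2 ≤ hh M a := le_max_right _ _
      linarith
    have b3 : 0 ≤ 1 - hh M a ^ 4 := by have := (hh4 x).2; linarith
    calc ff s a - ff s a * hh M a ^ 4 = ff s a * (1 - hh M a ^ 4) := by ring
      _ ≤ 1 / (1 + a ^ 2) * (4 * (a ^ 2 / M ^ 2)) :=
          mul_le_mul b1 b2 b3 (by positivity)
      _ = 4 / M ^ 2 * (a ^ 2 / (1 + a ^ 2)) := by
          field_simp
      _ ≤ 4 / M ^ 2 * 1 := by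
          apply mul_le_mul_of_nonneg_left _ (by positivity)
          rw [div_le_one hq0]
          linarith
      _ = 4 / M ^ 2 := mul_one _

end Pool.KD
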